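import Pool.Agent.W78.GT.Basic

/-!
Project GT (helper78), task GT-1 (helper571): reduction theory (`S_REP`).
-/

set_option autoImplicit false

namespace Pool.Agent.W571.GT

open Finset Pool.Agent.W78.GT

variable {t c : ℤ}

/-- `(2dx+By)^2 + E y^2` -/
def HH (d B E x y : ℤ) : ℤ := (2 * d * x + B * y) ^ 2 + E * y ^ 2

/-- `d x^2 + B x y + d' y^2` -/
def gg (d B d' x y : ℤ) : ℤ := d * x ^ 2 + B * x * y + d' * y ^ 2

theorem HH_nonneg {d B E : ℤ} (hE : 0 ≤ E) (x y : ℤ) : 0 ≤ HH d B E x y := by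
  unfold HH
  positivity

theorem gg_ne {d B d' D : ℤ} (hd : 0 < d) (hD : B ^ 2 - 4 * d * d' = D) (hns : ¬ IsSquare D)
    {x y : ℤ} (hxy : x ≠ 0 ∨ y ≠ 0) : gg d B d' x y ≠ 0 := by
  intro h
  have e : (2 * d * x + B * y) ^ 2 = D * y ^ 2 := by
    rw [← hD]
    unfold gg at h
    linear_combination 4 * d * h
  by_cases hy : y = 0
  · subst hy
    have h1 : 2 * d * x = 0 := by
      have : (2 * d * x) ^ 2 = 0 := by linear_combination e
      exact pow_eq_zero_iff (two_ne_zero) |>.1 this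
    have hx : x = 0 := by
      rcases mul_eq_zero.1 h1 with h2 | h2
      · omega
      · exact h2
    rcases hxy with h3 | h3
    · exact h3 hx
    · exact h3 rfl
  · apply hns
    have h1 : y ^ 2 ∣ (2 * d * x + B * y) ^ 2 := ⟨D, by rw [e]; ring⟩
    have h2 : y ∣ 2 * d * x + B * y := (Int.pow_dvd_pow_iff two_ne_zero).1 h1
    obtain ⟨k, hk⟩ := h2
    rw [hk] at e
    refine ⟨k, ?_⟩
    have h3 : y ^ 2 * (k * k) = y ^ 2 * D := by linear_combination e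
    exact (mul_left_cancel₀ (pow_ne_zero 2 hy) h3).symm

theorem abs_gg_le {d B d' D : ℤ} (hd : 0 < d) (hD : B ^ 2 - 4 * d * d' = D) (x y : ℤ) :
    4 * d * |gg d B d' x y| ≤ HH d B |D| x y := by
  have e : 4 * d * |gg d B d' x y| = |(2 * d * x + B * y) ^ 2 - D * y ^ 2| := by
    have h1 : (2 * d * x + B * y) ^ 2 - D * y ^ 2 = 4 * d * gg d B d' x y := by
      rw [← hD]; unfold gg; ring
    rw [h1, abs_mul, abs_of_pos (by linarith : (0 : ℤ) < 4 * d)]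
  rw [e]
  unfold HH
  calc |(2 * d * x + B * y) ^ 2 - D * y ^ 2| ≤ |(2 * d * x + B * y) ^ 2| + |D * y ^ 2| := abs_sub _ _
    _ = (2 * d * x + B * y) ^ 2 + |D| * y ^ 2 := by
        rw [abs_mul, abs_of_nonneg (sq_nonneg _), abs_of_nonneg (sq_nonneg y)]

theorem four_le {d B d' D : ℤ} (hd : 0 < d) (hD : B ^ 2 - 4 * d * d' = D) (hns : ¬ IsSquare D)
    {x y : ℤ} (hxy : x ≠ 0 ∨ y ≠ 0) : 4 * d ≤ HH d B |D| x y := by
  have h1 := abs_gg_le hd hD x y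
  have h2 : 1 ≤ |gg d B d' x y| := Int.one_le_abs (gg_ne hd hD hns hxy)
  have h3 : 4 * d * 1 ≤ 4 * d * |gg d B d' x y| := mul_le_mul_of_nonneg_left h2 (by linarith)
  linarith

/-- a minimal basis -/
theorem exists_min {d B E : ℤ} (hE : 0 ≤ E) : ∃ p₁ p₂ q₁ q₂ : ℤ, p₁ * q₂ - p₂ * q₁ = 1 ∧
    ∀ a₁ a₂ b₁ b₂ : ℤ, a₁ * b₂ - a₂ * b₁ = 1 →
      HH d B E p₁ p₂ + HH d B E q₁ q₂ ≤ HH d B E a₁ a₂ + HH d B E b₁ b₂ := by
  classical
  have hex : ∃ N : ℕ, ∃ p₁ p₂ q₁ q₂ : ℤ, p₁ * q₂ - p₂ * q₁ = 1 ∧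
      HH d B E p₁ p₂ + HH d B E q₁ q₂ = N := by
    refine ⟨(HH d B E 1 0 + HH d B E 0 1).toNat, 1, 0, 0, 1, by norm_num, ?_⟩
    rw [Int.toNat_of_nonneg (add_nonneg (HH_nonneg hE _ _) (HH_nonneg hE _ _))]
  obtain ⟨p₁, p₂, q₁, q₂, h1, h2⟩ := Nat.find_spec hex
  refine ⟨p₁, p₂, q₁, q₂, h1, ?_⟩
  intro a₁ a₂ b₁ b₂ hab
  rw [h2]
  have h3 : Nat.find hex ≤ (HH d B E a₁ a₂ + HH d B E b₁ b₂).toNat := by
    apply Nat.find_min'
    refine ⟨a₁, a₂, b₁, b₂, hab, ?_⟩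
    rw [Int.toNat_of_nonneg (add_nonneg (HH_nonneg hE _ _) (HH_nonneg hE _ _))]
  have h4 := Int.toNat_of_nonneg (add_nonneg (HH_nonneg hE a₁ a₂) (HH_nonneg hE b₁ b₂) :
    0 ≤ HH d B E a₁ a₂ + HH d B E b₁ b₂)
  omega

theorem quad_ge {α β δ : ℤ} (h1 : |β| ≤ α) (h2 : |β| ≤ δ) (x y : ℤ) :
    0 ≤ α * x ^ 2 + 2 * β * x * y + δ * y ^ 2 := by
  rcases abs_cases β with ⟨h3, h4⟩ | ⟨h3, h4⟩
  · rw [h3] at h1 h2
    have e : α * x ^ 2 + 2 * β * x * y + δ * y ^ 2 =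
        (α - β) * x ^ 2 + (δ - β) * y ^ 2 + β * (x + y) ^ 2 := by ring
    rw [e]
    have a1 : 0 ≤ (α - β) * x ^ 2 := mul_nonneg (by linarith) (sq_nonneg _)
    have a2 : 0 ≤ (δ - β) * y ^ 2 := mul_nonneg (by linarith) (sq_nonneg _)
    have a3 : 0 ≤ β * (x + y) ^ 2 := mul_nonneg (by linarith) (sq_nonneg _)
    linarith
  · rw [h3] at h1 h2
    have e : α * x ^ 2 + 2 * β * x * y + δ * y ^ 2 =
        (α + β) * x ^ 2 + (δ + β) * y ^ 2 + (-β) * (x - y) ^ 2 := by ring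
    rw [e]
    have a1 : 0 ≤ (α + β) * x ^ 2 := mul_nonneg (by linarith) (sq_nonneg _)
    have a2 : 0 ≤ (δ + β) * y ^ 2 := mul_nonneg (by linarith) (sq_nonneg _)
    have a3 : 0 ≤ (-β) * (x - y) ^ 2 := mul_nonneg (by linarith) (sq_nonneg _)
    linarith

theorem rep (hns : ¬ IsSquare (t ^ 2 - 4 * c)) : S_REP t c := by
  obtain ⟨D, hDdef⟩ : ∃ D : ℤ, D = t ^ 2 - 4 * c := ⟨_, rfl⟩
  rw [← hDdef] at hns
  refine ⟨D.natAbs + 4 * D.natAbs ^ 2 + 2, by omega, ?_⟩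
  have hCE : ((D.natAbs + 4 * D.natAbs ^ 2 + 2 : ℕ) : ℤ) = |D| + 4 * |D| ^ 2 + 2 := by
    push_cast
    rfl
  intro d n d' hd1 hd1' h
  have hd : (0 : ℤ) < d := by exact_mod_cast hd1
  have hd' : (1 : ℤ) ≤ d' := by exact_mod_cast hd1'
  obtain ⟨B, hB⟩ : ∃ B : ℤ, B = 2 * n + t := ⟨_, rfl⟩
  have hdisc : B ^ 2 - 4 * d * d' = D := by
    rw [hB, hDdef]
    unfold Qp at h
    linear_combination -4 * h
  have hE0 : 0 ≤ |D| := abs_nonneg D
  obtain ⟨p₁, p₂, q₁, q₂, hdet, hmin⟩ := exists_min (d := d) (B := B) hE0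
  have hp0 : p₁ ≠ 0 ∨ p₂ ≠ 0 := by
    by_contra hcon
    push Not at hcon
    rw [hcon.1, hcon.2] at hdet
    norm_num at hdet
  have hq0 : q₁ ≠ 0 ∨ q₂ ≠ 0 := by
    by_contra hcon
    push Not at hcon
    rw [hcon.1, hcon.2] at hdet
    norm_num at hdet
  obtain ⟨α, hα⟩ : ∃ α : ℤ, α = HH d B |D| p₁ p₂ := ⟨_, rfl⟩
  obtain ⟨δ, hδ⟩ : ∃ δ : ℤ, δ = HH d B |D| q₁ q₂ := ⟨_, rfl⟩
  obtain ⟨β, hβ⟩ : ∃ β : ℤ, β = 2 * (2 * d * p₁ + B * p₂) * (2 * d * q₁ + B * q₂) +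
    2 * |D| * p₂ * q₂ := ⟨_, rfl⟩
  have hα4 : 4 * (d : ℤ) ≤ α := by rw [hα]; exact four_le hd hdisc hns hp0
  have hδ4 : 4 * (d : ℤ) ≤ δ := by rw [hδ]; exact four_le hd hdisc hns hq0
  have hH : ∀ x y : ℤ, HH d B |D| (x * p₁ + y * q₁) (x * p₂ + y * q₂) =
      α * x ^ 2 + β * x * y + δ * y ^ 2 := by
    intro x y
    rw [hα, hβ, hδ]
    unfold HH
    ring
  have m1 := hmin p₁ p₂ (p₁ + q₁) (p₂ + q₂) (by linear_combination hdet)
  have m2 := hmin p₁ p₂ (q₁ - p₁) (q₂ - p₂) (by linear_combination hdet)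
  have m3 := hmin (p₁ + q₁) (p₂ + q₂) q₁ q₂ (by linear_combination hdet)
  have m4 := hmin (p₁ - q₁) (p₂ - q₂) q₁ q₂ (by linear_combination hdet)
  have k1 : HH d B |D| (p₁ + q₁) (p₂ + q₂) = α + β + δ := by
    have := hH 1 1
    simpa using this
  have k2 : HH d B |D| (q₁ - p₁) (q₂ - p₂) = α - β + δ := by
    have := hH (-1) 1
    have e1 : -1 * p₁ + 1 * q₁ = q₁ - p₁ := by ring
    have e2 : -1 * p₂ + 1 * q₂ = q₂ - p₂ := by ring
    rw [e1, e2] at this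
    rw [this]; ring
  have k3 : HH d B |D| (p₁ - q₁) (p₂ - q₂) = α - β + δ := by
    have := hH 1 (-1)
    have e1 : 1 * p₁ + -1 * q₁ = p₁ - q₁ := by ring
    have e2 : 1 * p₂ + -1 * q₂ = p₂ - q₂ := by ring
    rw [e1, e2] at this
    rw [this]; ring
  rw [← hα, ← hδ, k1] at m1
  rw [← hα, ← hδ, k2] at m2
  rw [← hα, ← hδ, k1] at m3
  rw [← hα, ← hδ, k3] at m4
  have hβα : |β| ≤ α := abs_le.2 ⟨by linarith, by linarith⟩
  have hβδ : |β| ≤ δ := abs_le.2 ⟨by linarith, by linarith⟩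
  have hdiscH : 4 * α * δ = 16 * (d : ℤ) ^ 2 * |D| + β ^ 2 := by
    have hdet2 : (p₁ * q₂ - p₂ * q₁) ^ 2 = 1 := by rw [hdet]; norm_num
    have e : 4 * α * δ - β ^ 2 = 16 * (d : ℤ) ^ 2 * |D| * (p₁ * q₂ - p₂ * q₁) ^ 2 := by
      rw [hα, hβ, hδ]
      unfold HH
      ring
    rw [hdet2] at e
    linarith
  have hα0 : 0 < α := by linarith
  have hδ0 : 0 < δ := by linarith
  have hβ2 : β ^ 2 ≤ α * δ := by
    calc β ^ 2 = |β| * |β| := by rw [abs_mul_abs_self, pow_two]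
      _ ≤ α * δ := mul_le_mul hβα hβδ (abs_nonneg _) hα0.le
  have h3 : 3 * (α * δ) ≤ 16 * (d : ℤ) ^ 2 * |D| := by linarith
  have hαle : 3 * α ≤ 4 * d * |D| := by
    have h4 : α * (4 * d) ≤ α * δ := mul_le_mul_of_nonneg_left hδ4 hα0.le
    have h5 : (4 * (d : ℤ)) * (3 * α) ≤ (4 * d) * (4 * d * |D|) := by
      calc (4 * (d : ℤ)) * (3 * α) = 3 * (α * (4 * d)) := by ring
        _ ≤ 3 * (α * δ) := by linarith
        _ ≤ 16 * (d : ℤ) ^ 2 * |D| := h3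
        _ = _ := by ring
    exact le_of_mul_le_mul_left h5 (by linarith)
  have hδle : 3 * δ ≤ 4 * d * |D| := by
    have h4 : (4 * d) * δ ≤ α * δ := mul_le_mul_of_nonneg_right hα4 hδ0.le
    have h5 : (4 * (d : ℤ)) * (3 * δ) ≤ (4 * d) * (4 * d * |D|) := by
      calc (4 * (d : ℤ)) * (3 * δ) = 3 * ((4 * d) * δ) := by ring
        _ ≤ 3 * (α * δ) := by linarith
        _ ≤ 16 * (d : ℤ) ^ 2 * |D| := h3
        _ = _ := by ring
    exact le_of_mul_le_mul_left h5 (by linarith)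
  -- the form
  obtain ⟨a, ha⟩ : ∃ a : ℤ, a = gg d B d' p₁ p₂ := ⟨_, rfl⟩
  obtain ⟨c', hc'⟩ : ∃ c' : ℤ, c' = gg d B d' q₁ q₂ := ⟨_, rfl⟩
  obtain ⟨b, hb⟩ : ∃ b : ℤ, b = 2 * d * p₁ * q₁ + B * (p₁ * q₂ + p₂ * q₁) + 2 * d' * p₂ * q₂ :=
    ⟨_, rfl⟩
  have haD : |a| ≤ |D| := by
    have h4 := abs_gg_le hd hdisc p₁ p₂
    rw [← ha, ← hα] at h4
    have h5 : (4 * (d : ℤ)) * (3 * |a|) ≤ (4 * d) * |D| := by
      calc (4 * (d : ℤ)) * (3 * |a|) = 3 * (4 * d * |a|) := by ring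
        _ ≤ 3 * α := by linarith
        _ ≤ _ := hαle
    have h6 := le_of_mul_le_mul_left h5 (by linarith)
    have := abs_nonneg a
    linarith
  have hcD : |c'| ≤ |D| := by
    have h4 := abs_gg_le hd hdisc q₁ q₂
    rw [← hc', ← hδ] at h4
    have h5 : (4 * (d : ℤ)) * (3 * |c'|) ≤ (4 * d) * |D| := by
      calc (4 * (d : ℤ)) * (3 * |c'|) = 3 * (4 * d * |c'|) := by ring
        _ ≤ 3 * δ := by linarith
        _ ≤ _ := hδle
    have h6 := le_of_mul_le_mul_left h5 (by linarith)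
    have := abs_nonneg c'
    linarith
  have hbdisc : b ^ 2 - 4 * a * c' = D := by
    have hdet2 : (p₁ * q₂ - p₂ * q₁) ^ 2 = 1 := by rw [hdet]; norm_num
    have e : b ^ 2 - 4 * a * c' = (B ^ 2 - 4 * d * d') * (p₁ * q₂ - p₂ * q₁) ^ 2 := by
      rw [ha, hb, hc']
      unfold gg
      ring
    rw [e, hdet2, hdisc, mul_one]
  have hbb : |b| ≤ |D| + 4 * |D| ^ 2 := by
    have h4 : |b| ≤ b ^ 2 := by
      rw [← sq_abs b]
      rcases (abs_nonneg b).eq_or_lt with h5 | h5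
      · rw [← h5]; norm_num
      · exact le_self_pow₀ h5 two_ne_zero
    have h5 : b ^ 2 = D + 4 * a * c' := by linarith
    have h6 : a * c' ≤ |D| ^ 2 := by
      calc a * c' ≤ |a * c'| := le_abs_self _
        _ = |a| * |c'| := abs_mul _ _
        _ ≤ |D| * |D| := mul_le_mul haD hcD (abs_nonneg _) hE0
        _ = |D| ^ 2 := by ring
    have h7 := le_abs_self D
    linarith
  have hsq0 : 0 ≤ |D| ^ 2 := sq_nonneg _
  have hbound : ∀ x y : ℤ, 2 * (d : ℤ) * (x ^ 2 + y ^ 2) ≤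
      HH d B |D| (x * p₁ + y * q₁) (x * p₂ + y * q₂) := by
    intro x y
    rw [hH]
    have h4 := quad_ge hβα hβδ x y
    have h5 : 4 * (d : ℤ) * x ^ 2 ≤ α * x ^ 2 := mul_le_mul_of_nonneg_right hα4 (sq_nonneg _)
    have h6 : 4 * (d : ℤ) * y ^ 2 ≤ δ * y ^ 2 := mul_le_mul_of_nonneg_right hδ4 (sq_nonneg _)
    linarith
  refine ⟨a, b, c', q₂, -p₂, -q₁, p₁, ?_, ?_, ?_, ?_, ?_, ?_, ?_, ?_, ?_, ?_⟩
  · rw [hCE]; linarith
  · rw [hCE]; linarith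
  · rw [hCE]; linarith
  · rw [hbdisc, hDdef]
  · linear_combination hdet
  · -- v
    have h4 := hbound q₂ (-p₂)
    have e1 : q₂ * p₁ + -p₂ * q₁ = 1 := by linear_combination hdet
    have e2 : q₂ * p₂ + -p₂ * q₂ = 0 := by ring
    rw [e1, e2] at h4
    have e3 : HH d B |D| 1 0 = 2 * d * (2 * d) := by unfold HH; ring
    rw [e3] at h4
    have h5 := le_of_mul_le_mul_left h4 (by linarith)
    rw [hCE]
    have h6 : 0 ≤ (|D| + 4 * |D| ^ 2) * d := by positivity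
    linarith
  · have h4 := hbound (-q₁) p₁
    have e1 : -q₁ * p₁ + p₁ * q₁ = 0 := by ring
    have e2 : -q₁ * p₂ + p₁ * q₂ = 1 := by linear_combination hdet
    rw [e1, e2] at h4
    have e3 : HH d B |D| 0 1 = B ^ 2 + |D| := by unfold HH; ring
    rw [e3] at h4
    have h5 : B ^ 2 + |D| ≤ 2 * d * ((2 + |D|) * d') := by
      have h6 : B ^ 2 = D + 4 * d * d' := by linarith
      have h7 := le_abs_self D
      have h9 : (1 : ℤ) * 1 ≤ d * d' := mul_le_mul (by linarith) hd' (by norm_num) (by linarith)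
      have h8 : |D| * 1 ≤ |D| * (d * d') := by
        apply mul_le_mul_of_nonneg_left _ hE0
        linarith
      linarith
    have h6 := le_of_mul_le_mul_left (h4.trans h5) (by linarith)
    rw [hCE]
    have h7 : 0 ≤ 4 * |D| ^ 2 * d' := by positivity
    linarith
  · rw [ha, hb, hc']
    unfold gg
    have hdet2 : (p₁ * q₂ - p₂ * q₁) ^ 2 = 1 := by rw [hdet]; norm_num
    linear_combination (d : ℤ) * hdet2
  · rw [ha, hb, hc']
    unfold gg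
    have hdet2 : (p₁ * q₂ - p₂ * q₁) ^ 2 = 1 := by rw [hdet]; norm_num
    linear_combination (d' : ℤ) * hdet2
  · rw [ha, hb, hc', ← hB]
    unfold gg
    have hdet2 : (p₁ * q₂ - p₂ * q₁) ^ 2 = 1 := by rw [hdet]; norm_num
    linear_combination B * hdet2

end Pool.Agent.W571.GT
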