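import Pool.Agent.W78.GT.Basic

/-!
Project GT (helper78), task GT-3 (helper571): local residue classes (`S_LOCT`), after W358/GM/Loc.
-/

set_option autoImplicit false

namespace Pool.Agent.W571.GT

open Finset Pool.Agent.W78.GT

variable {t c : ℤ}

/-- a good class `r` modulo `l^2` -/
def PP (t A n B : ℤ) (l r : ℕ) : Prop :=
  Nat.Coprime r l ∧ ¬ ((l : ℤ) ∣ MM t A n B r ∧ ((l : ℤ) ∣ A * B ∨ (l : ℤ) ^ 2 ∣ MM t A n B r))

open scoped Classical in
/-- the chosen good class -/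
noncomputable def rr (t A n B : ℤ) (l : ℕ) : ℕ :=
  if PP t A n B l 1 then 1 else if PP t A n B l 2 then 2 else if PP t A n B l 3 then 3 else
    if PP t A n B l 4 then 4 else 1

theorem rr_coprime (t A n B : ℤ) (l : ℕ) : Nat.Coprime (rr t A n B l) l := by
  unfold rr
  split_ifs with h1 h2 h3 h4
  · exact h1.1
  · exact h2.1
  · exact h3.1
  · exact h4.1
  · exact Nat.coprime_one_left l

theorem rr_good_of {t A n B : ℤ} {l : ℕ} (h : PP t A n B l 1 ∨ PP t A n B l 2 ∨ PP t A n B l 3 ∨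
    PP t A n B l 4) : PP t A n B l (rr t A n B l) := by
  unfold rr
  split_ifs with h1 h2 h3 h4
  · exact h1
  · exact h2
  · exact h3
  · exact h4
  · tauto

theorem coprime_small {l r : ℕ} (hl : l.Prime) (h5 : 5 ≤ l) (hr : 1 ≤ r) (hr4 : r ≤ 4) :
    Nat.Coprime r l := by
  rw [Nat.coprime_comm, Nat.Prime.coprime_iff_not_dvd hl]
  intro h
  have := Nat.le_of_dvd hr h
  omega

theorem exists_PP {A n B : ℤ} (h : A * B = Qp t c n) {l : ℕ} (hl : Spl t c l) :
    PP t A n B l 1 ∨ PP t A n B l 2 ∨ PP t A n B l 3 ∨ PP t A n B l 4 := by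
  obtain ⟨hp, hD2, -⟩ := hl
  have hpi : Prime (l : ℤ) := Nat.prime_iff_prime_int.mp hp
  have h2 : ¬ (l : ℤ) ∣ 2 := fun hd => hD2 (hd.mul_right _)
  have hD : ¬ (l : ℤ) ∣ t ^ 2 - 4 * c := fun hd => hD2 (hd.mul_left _)
  have hdisc : t ^ 2 - 4 * c = (2 * n + t) ^ 2 - 4 * (A * B) := by
    rw [h]; unfold Qp; ring
  have hl2 : l ≠ 2 := by
    rintro rfl
    exact h2 (by norm_num)
  by_cases h3 : l = 3
  · subst h3
    by_cases hAB : (3 : ℤ) ∣ A * B
    · -- one of 1, 2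
      by_contra hcon
      push Not at hcon
      obtain ⟨c1, c2, -, -⟩ := hcon
      have d1 : (3 : ℤ) ∣ MM t A n B 1 := by
        by_contra hc
        exact c1 ⟨by norm_num, fun hh => hc (by exact_mod_cast hh.1)⟩
      have d2 : (3 : ℤ) ∣ MM t A n B 2 := by
        by_contra hc
        exact c2 ⟨by norm_num, fun hh => hc (by exact_mod_cast hh.1)⟩
      have d3 : (3 : ℤ) ∣ 2 * n + t := by
        have e : 2 * n + t = MM t A n B 2 - MM t A n B 1 - 3 * B := by unfold MM; ring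
        rw [e]
        exact dvd_sub (dvd_sub d2 d1) (dvd_mul_right _ _)
      apply hD
      rw [hdisc]
      exact dvd_sub ((by exact_mod_cast d3 : ((3 : ℕ) : ℤ) ∣ 2 * n + t).trans
        (dvd_pow_self _ two_ne_zero)) ((by exact_mod_cast hAB : ((3 : ℕ) : ℤ) ∣ A * B).mul_left 4)
    · by_contra hcon
      push Not at hcon
      obtain ⟨c1, -, -, c4⟩ := hcon
      have d1 : (9 : ℤ) ∣ MM t A n B 1 := by
        by_contra hc
        apply c1
        refine ⟨by norm_num, fun hh => ?_⟩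
        rcases hh.2 with h5 | h5
        · exact hAB (by exact_mod_cast h5)
        · apply hc
          norm_num at h5
          exact h5
      have d4 : (9 : ℤ) ∣ MM t A n B 4 := by
        by_contra hc
        apply c4
        refine ⟨by norm_num, fun hh => ?_⟩
        rcases hh.2 with h5 | h5
        · exact hAB (by exact_mod_cast h5)
        · apply hc
          norm_num at h5
          exact h5
      obtain ⟨x, hx⟩ := d1
      obtain ⟨y, hy⟩ := d4
      apply hD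
      rw [hdisc]
      have e1 : 3 * (2 * n + t) + 15 * B = 9 * y - 9 * x := by
        rw [← hx, ← hy]; unfold MM; ring
      have e2 : 2 * n + t = 3 * (y - x) - 5 * B := by linarith
      have e3 : A = 9 * x - (2 * n + t) - B := by
        rw [← hx]; unfold MM; ring
      rw [e2] at e3
      rw [e2, e3]
      refine ⟨3 * (y - x) ^ 2 - 10 * (y - x) * B + 7 * B ^ 2 + 0 - 4 * (3 * x - (y - x)) * B + 0 +
        (25 * B ^ 2 - 16 * B ^ 2) / 3 - 7 * B ^ 2, ?_⟩
      have e4 : (25 * B ^ 2 - 16 * B ^ 2) / 3 = 3 * B ^ 2 := by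
        have : 25 * B ^ 2 - 16 * B ^ 2 = 3 * (3 * B ^ 2) := by ring
        rw [this, Int.mul_ediv_cancel_left _ (by norm_num)]
      rw [e4]
      push_cast
      ring
  · have h5 : 5 ≤ l := by
      have h22 := hp.two_le
      by_contra hcon
      push Not at hcon
      interval_cases l
      · exact hl2 rfl
      · exact h3 rfl
      · exact absurd hp (by norm_num)
    by_contra hcon
    push Not at hcon
    obtain ⟨c1, c2, c3, -⟩ := hcon
    have g1 : (l : ℤ) ∣ MM t A n B 1 := by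
      by_contra hc
      exact c1 ⟨coprime_small hp h5 (by norm_num) (by norm_num), fun hh => hc (by exact_mod_cast hh.1)⟩
    have g2 : (l : ℤ) ∣ MM t A n B 2 := by
      by_contra hc
      exact c2 ⟨coprime_small hp h5 (by norm_num) (by norm_num), fun hh => hc (by exact_mod_cast hh.1)⟩
    have g3 : (l : ℤ) ∣ MM t A n B 3 := by
      by_contra hc
      exact c3 ⟨coprime_small hp h5 (by norm_num) (by norm_num), fun hh => hc (by exact_mod_cast hh.1)⟩
    have e1 : MM t A n B 1 - 2 * MM t A n B 2 + MM t A n B 3 = 2 * B := by unfold MM; ring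
    have e2 : MM t A n B 2 - MM t A n B 1 = (2 * n + t) + 3 * B := by unfold MM; ring
    have d1 : (l : ℤ) ∣ 2 * B := by
      rw [← e1]
      exact dvd_add (dvd_sub g1 (Dvd.dvd.mul_left g2 2)) g3
    have d2 : (l : ℤ) ∣ B := (hpi.dvd_or_dvd d1).resolve_left h2
    have d3 : (l : ℤ) ∣ (2 * n + t) + 3 * B := by
      rw [← e2]
      exact dvd_sub g2 g1
    have d4 : (l : ℤ) ∣ 2 * n + t := (dvd_add_left (Dvd.dvd.mul_left d2 3)).mp d3
    apply hD
    rw [hdisc]
    exact dvd_sub (d4.trans (dvd_pow_self _ two_ne_zero)) ((d2.mul_left A).mul_left 4)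

theorem MM_congr {l : ℤ} {A B n A' B' n' q q' : ℤ} (hA : A ≡ A' [ZMOD l]) (hB : B ≡ B' [ZMOD l])
    (hn : n ≡ n' [ZMOD l]) (hq : q ≡ q' [ZMOD l]) : MM t A n B q ≡ MM t A' n' B' q' [ZMOD l] := by
  unfold MM
  exact (hA.add (((hn.mul_left 2).add_right t).mul hq)).add ((hq.pow 2).mul hB)

theorem dvd_congr {l x y : ℤ} (h : x ≡ y [ZMOD l]) : l ∣ x ↔ l ∣ y := by
  have := h.dvd
  constructor
  · intro hx
    have h2 := dvd_add this hx
    rwa [sub_add_cancel] at h2
  · intro hy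
    have h2 := dvd_sub hy this
    rwa [sub_sub_cancel] at h2

/-- the condition only depends on the residue classes modulo `l^2` -/
theorem PP_congr {A n B A' n' B' : ℤ} {l r r' : ℕ} (hA : A ≡ A' [ZMOD (l : ℤ) ^ 2])
    (hn : n ≡ n' [ZMOD (l : ℤ) ^ 2]) (hB : B ≡ B' [ZMOD (l : ℤ) ^ 2])
    (hr : (r : ℤ) ≡ r' [ZMOD (l : ℤ) ^ 2]) (h : PP t A n B l r) :
    ¬ ((l : ℤ) ∣ MM t A' n' B' r' ∧
      ((l : ℤ) ∣ A' * B' ∨ (l : ℤ) ^ 2 ∣ MM t A' n' B' r')) := by
  have hd : (l : ℤ) ∣ (l : ℤ) ^ 2 := dvd_pow_self _ two_ne_zero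
  have hM := MM_congr (t := t) hA hB hn hr
  have h1 := dvd_congr hM
  have h2 := dvd_congr (hM.of_dvd hd)
  have h3 := dvd_congr ((hA.of_dvd hd).mul (hB.of_dvd hd))
  have := h.2
  rwa [h1, h2, h3] at this

theorem rr_congr {A n B A' n' B' : ℤ} {l : ℕ} (hA : A ≡ A' [ZMOD (l : ℤ) ^ 2])
    (hn : n ≡ n' [ZMOD (l : ℤ) ^ 2]) (hB : B ≡ B' [ZMOD (l : ℤ) ^ 2]) :
    rr t A n B l = rr t A' n' B' l := by
  have key : ∀ r : ℕ, PP t A n B l r ↔ PP t A' n' B' l r := by
    intro r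
    constructor
    · intro h
      exact ⟨h.1, PP_congr hA hn hB (Int.ModEq.refl _) h⟩
    · intro h
      exact ⟨h.1, PP_congr hA.symm hn.symm hB.symm (Int.ModEq.refl _) h⟩
  have key2 : PP t A n B l = PP t A' n' B' l := funext fun r => propext (key r)
  unfold rr
  rw [key2]

open scoped Classical in
/-- the split primes `≤ z` -/
noncomputable def Pz (t c : ℤ) (z : ℕ) : Finset ℕ := (range (z + 1)).filter (fun l => Spl t c l)

theorem mem_Pz {z l : ℕ} : l ∈ Pz t c z ↔ l ≤ z ∧ Spl t c l := by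
  classical
  unfold Pz
  rw [mem_filter, mem_range]
  constructor
  · rintro ⟨h1, h2⟩
    exact ⟨by omega, h2⟩
  · rintro ⟨h1, h2⟩
    exact ⟨by omega, h2⟩

theorem sq_dvd_mz {z l : ℕ} (hl : l ∈ Pz t c z) : l ^ 2 ∣ mz t c z :=
  Finset.dvd_prod_of_mem (fun l => l ^ 2) hl

theorem coprime_D4 {l : ℕ} (hl : Spl t c l) : Nat.Coprime (D4 t c) l := by
  obtain ⟨hp, hD2, -⟩ := hl
  rw [Nat.coprime_comm, Nat.Prime.coprime_iff_not_dvd hp]
  unfold D4
  intro h
  have h1 : (l : ℤ) ∣ 4 * (t ^ 2 - 4 * c) := by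
    rw [← Int.natAbs_dvd_natAbs, Int.natAbs_mul]
    simpa using h
  apply hD2
  have hpi : Prime (l : ℤ) := Nat.prime_iff_prime_int.mp hp
  have e : 4 * (t ^ 2 - 4 * c) = 2 * (2 * (t ^ 2 - 4 * c)) := by ring
  rw [e] at h1
  rcases hpi.dvd_or_dvd h1 with h2 | h2
  · exact h2.mul_right _
  · exact h2

/-- Chinese remainder theorem -/
theorem crt (z : ℕ) (r : ℕ → ℕ) :
    ∃ k : ℕ, k ≡ 1 [MOD D4 t c] ∧ ∀ l ∈ Pz t c z, k ≡ r l [MOD l ^ 2] := by
  classical
  have hs : ∀ i ∈ Pz t c z, (fun l => l ^ 2 : ℕ → ℕ) i ≠ 0 := by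
    intro i hi
    exact pow_ne_zero 2 (mem_Pz.1 hi).2.1.ne_zero
  have hpp : Set.Pairwise (Pz t c z : Set ℕ) (Function.onFun Nat.Coprime (fun l => l ^ 2)) := by
    intro a ha b hb hab
    have ha' := (mem_Pz.1 (mem_coe.1 ha)).2.1
    have hb' := (mem_Pz.1 (mem_coe.1 hb)).2.1
    exact Nat.Coprime.pow _ _ ((Nat.coprime_primes ha' hb').mpr hab)
  obtain ⟨k1, hk1⟩ := Nat.chineseRemainderOfFinset r (fun l => l ^ 2) (Pz t c z) hs hpp
  have hco : Nat.Coprime (D4 t c) (mz t c z) := by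
    unfold mz
    rw [Nat.coprime_prod_right_iff]
    intro l hl
    exact Nat.Coprime.pow_right _ (coprime_D4 (mem_Pz.1 hl).2)
  obtain ⟨k, hk⟩ := Nat.chineseRemainder hco 1 k1
  refine ⟨k, hk.1, fun l hl => ?_⟩
  exact (hk.2.of_dvd (sq_dvd_mz hl)).trans (hk1 l hl)

theorem loct (t c : ℤ) : S_LOCT t c := by
  intro z
  choose G hG using crt (t := t) (c := c) z
  have hdz : ∀ l ∈ Pz t c z, ((l : ℤ) ^ 2) ∣ (mz t c z : ℤ) := by
    intro l hl
    exact_mod_cast sq_dvd_mz hl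
  refine ⟨fun A n B => G (fun l => if l ∈ Pz t c z then rr t A n B l else 1), ?_, ?_, ?_⟩
  · intro A n B
    refine ⟨(hG _).1, ?_⟩
    unfold mz
    rw [Nat.coprime_prod_right_iff]
    intro l hl
    have hl' : l ∈ Pz t c z := hl
    apply Nat.Coprime.pow_right
    have h2 := (hG (fun l => if l ∈ Pz t c z then rr t A n B l else 1)).2 l hl'
    simp only [if_pos hl'] at h2
    have h3 := h2.of_dvd (dvd_pow_self l two_ne_zero)
    have h4 := h3.gcd_eq
    have h5 := rr_coprime t A n B l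
    unfold Nat.Coprime at h5 ⊢
    rw [h4, h5]
  · intro A n B A' n' B' hA hn hB
    change G _ = G _
    congr 1
    funext l
    by_cases hl : l ∈ Pz t c z
    · rw [if_pos hl, if_pos hl]
      exact rr_congr (hA.of_dvd (hdz l hl)) (hn.of_dvd (hdz l hl)) (hB.of_dvd (hdz l hl))
    · rw [if_neg hl, if_neg hl]
  · intro A n B h q hq l hlp hlz
    have hl : l ∈ Pz t c z := mem_Pz.2 ⟨hlz, hlp⟩
    have h2 := (hG (fun l => if l ∈ Pz t c z then rr t A n B l else 1)).2 l hl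
    simp only [if_pos hl] at h2
    have h3 := hq.of_dvd ((sq_dvd_mz hl).mul_left (D4 t c))
    have h4 : ((rr t A n B l : ℕ) : ℤ) ≡ (q : ℤ) [ZMOD (l : ℤ) ^ 2] := by
      have := Int.natCast_modEq_iff.mpr (h3.trans h2).symm
      push_cast at this
      exact this
    exact PP_congr (Int.ModEq.refl _) (Int.ModEq.refl _) (Int.ModEq.refl _) h4
      (rr_good_of (exists_PP h hlp))

end Pool.Agent.W571.GT
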